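import Pool.Agent.Q30.Cone.Space

/-!
# Minimal upper bounds without a supremum in an ordered Banach space with normal cone

`X = c₀ × ℝ²` with the cone of all `(x, a, b)` with `a, b ≥ 0` and `x k ≥ -√(a b)` for all `k`.
The increasing sequence `(1_{[0,n)}, 0, 0)` has all `(0, a, b)` with `a, b > 0`, `a b = 1`, as
minimal upper bounds.
-/

set_option autoImplicit false

namespace Pool.Agent.Results.MP_c65f17_an.MinimalNotLeast

open Pool.Agent.Q30.Cone

/-- There are a Banach space with a closed normal cone and an increasing sequence in it which has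
two different minimal upper bounds; in particular it has a minimal upper bound but no supremum. -/
theorem result : ∃ (X : Type) (_ : NormedAddCommGroup X) (_ : NormedSpace ℝ X) (K : Set X),
    CompleteSpace X ∧ IsClosedCone K ∧ IsNormalCone K ∧ ∃ x : ℕ → X, Increasing K x ∧
      (∃ u v : X, IsMinUB K x u ∧ IsMinUB K x v ∧ u ≠ v) ∧ ¬ ∃ s : X, IsSup K x s := by
  refine ⟨XX, inferInstance, inferInstance, KK, inferInstance, KK_cone, KK_normal, uu, uu_incr,
    ⟨(0, 1, 1), (0, 2, 1 / 2), minUB one_pos one_pos (by norm_num),
      minUB (by norm_num) (by norm_num) (by norm_num), ?_⟩, no_sup⟩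
  intro h
  have := congrArg (fun p : XX => p.2.1) h
  norm_num at this

end Pool.Agent.Results.MP_c65f17_an.MinimalNotLeast
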